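import Mathlib

set_option autoImplicit false

namespace Pool.Agent.Results.MP_c1a8be_al.Counter

open Filter Topology FreeGroup

variable {S : Type} [DecidableEq S]

/-- number of occurrences of the word `w` as a subword of the word `l` -/
def cnt (w l : List (S × Bool)) : ℕ := l.tails.countP fun t => decide (w <+: t)

/-- `w` is a nontrivial reduced word none of whose nonempty proper initial segments is a suffix -/
def NSO (w : FreeGroup S) : Prop :=
  w ≠ 1 ∧ ∀ u : List (S × Bool), u ≠ [] → u ≠ w.toWord → u <+: w.toWord → ¬ u <:+ w.toWord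

/-- Brooks function: occurrences of `w` minus occurrences of `w⁻¹` in the reduced word of `g` -/
def brooks (w g : FreeGroup S) : ℝ := (cnt w.toWord g.toWord : ℝ) - cnt w⁻¹.toWord g.toWord

/-- quasimorphism -/
def IsQM (φ : FreeGroup S → ℝ) : Prop := ∃ D : ℝ, ∀ g h, |φ g + φ h - φ (g * h)| ≤ D

lemma cnt_cons (w : List (S × Bool)) (c : S × Bool) (l : List (S × Bool)) :
    cnt w (c :: l) = cnt w l + if w <+: c :: l then 1 else 0 := by
  simp [cnt, List.countP_cons]

lemma cnt_short {w l : List (S × Bool)} (h : l.length < w.length) : cnt w l = 0 := by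
  rw [cnt, List.countP_eq_zero]
  intro t ht hw
  have h1 := ((List.mem_tails _ _).1 ht).length_le
  have h2 := (of_decide_eq_true hw).length_le
  omega

lemma cnt_nil {w : List (S × Bool)} (h : w ≠ []) : cnt w [] = 0 :=
  cnt_short (List.length_pos_iff.2 h)

lemma cnt_le {w : List (S × Bool)} (hw : w ≠ []) (x y : List (S × Bool)) :
    cnt w x + cnt w y ≤ cnt w (x ++ y) := by
  induction x with
  | nil => simp [cnt_nil hw]
  | cons c x ih =>
    rw [List.cons_append, cnt_cons, cnt_cons]
    by_cases h : w <+: c :: x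
    · rw [if_pos h, if_pos (show w <+: c :: (x ++ y) from
        h.trans (List.prefix_append (c :: x) y))]; omega
    · rw [if_neg h]; omega

lemma cnt_ge (w x y : List (S × Bool)) :
    cnt w (x ++ y) ≤ cnt w x + cnt w y + min x.length w.length := by
  induction x with
  | nil => simp
  | cons c x ih =>
    rw [List.cons_append, cnt_cons, cnt_cons, List.length_cons]
    by_cases h : w <+: c :: (x ++ y)
    · rw [if_pos h]
      by_cases h2 : w.length ≤ x.length + 1
      · rw [if_pos (List.prefix_of_prefix_length_le h (List.prefix_append (c :: x) y) h2)]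
        omega
      · omega
    · rw [if_neg h]; omega

lemma tend_of_close {a b : ℕ → ℝ} {L C : ℝ} (h : ∀ n, |a n - b n| ≤ C)
    (hb : Tendsto (fun n : ℕ => b n / n) atTop (𝓝 L)) :
    Tendsto (fun n : ℕ => a n / n) atTop (𝓝 L) := by
  have h0 : Tendsto (fun n : ℕ => (a n - b n) / n) atTop (𝓝 0) := by
    refine squeeze_zero_norm (fun n => ?_) (tendsto_const_div_atTop_nhds_zero_nat C)
    rw [Real.norm_eq_abs, abs_div, Nat.abs_cast]
    exact div_le_div_of_nonneg_right (h n) (Nat.cast_nonneg n)
  have := hb.add h0
  rw [add_zero] at this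
  exact this.congr fun n => by ring

abbrev R (r : List (S × Bool)) (n : ℕ) : List (S × Bool) := (List.replicate n r).flatten

lemma close {w : List (S × Bool)} (hw : w ≠ []) (g : FreeGroup S) : ∃ C : ℝ, ∀ n : ℕ,
    |(cnt w (g ^ n).toWord : ℝ) - cnt w (R (reduceCyclically g.toWord) n)| ≤ C := by
  set c := reduceCyclically.conjugator g.toWord
  refine ⟨((cnt w c + cnt w (invRev c) + 2 * w.length : ℕ) : ℝ), fun n => ?_⟩
  rw [toWord_pow, reduceCyclically.reduce_flatten_replicate isReduced_toWord]
  split_ifs with h
  · subst h; simp only [R, List.replicate_zero, List.flatten_nil, sub_self, abs_zero]; positivity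
  · set r := R (reduceCyclically g.toWord) n
    have h1 := cnt_le hw (c ++ r) (invRev c)
    have h2 := cnt_le hw c r
    have h3 := cnt_ge w (c ++ r) (invRev c)
    have h4 := cnt_ge w c r
    have h5 : cnt w r ≤ cnt w (c ++ r ++ invRev c) := by omega
    have h6 : cnt w (c ++ r ++ invRev c) ≤
        cnt w r + (cnt w c + cnt w (invRev c) + 2 * w.length) := by omega
    rw [abs_of_nonneg (sub_nonneg.2 (by exact_mod_cast h5)), sub_le_iff_le_add']
    exact_mod_cast h6

lemma conv {w : List (S × Bool)} (hw : w ≠ []) (g : FreeGroup S) :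
    ∃ L, Tendsto (fun n : ℕ => (cnt w (g ^ n).toWord : ℝ) / n) atTop (𝓝 L) := by
  obtain ⟨C, hC⟩ := close hw g
  set r := reduceCyclically g.toWord
  have hs : Subadditive fun n => (cnt w (R r n) : ℝ) + w.length := fun m n => by
    have h1 := cnt_ge w (R r m) (R r n)
    have h2 : R r (m + n) = R r m ++ R r n := by
      simp only [R, List.replicate_add, List.flatten_append]
    have h3 : cnt w (R r (m + n)) + w.length ≤
        (cnt w (R r m) + w.length) + (cnt w (R r n) + w.length) := by rw [h2]; omega
    show (cnt w (R r (m + n)) : ℝ) + w.length ≤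
        (cnt w (R r m) + w.length) + (cnt w (R r n) + w.length)
    exact_mod_cast h3
  have ht := hs.tendsto_lim ⟨0, by rintro _ ⟨n, rfl⟩; positivity⟩
  exact ⟨_, tend_of_close hC (tend_of_close (C := w.length) (fun n => by simp) ht)⟩

lemma brooks_inv (w g : FreeGroup S) : brooks w⁻¹ g = -brooks w g := by simp [brooks]

lemma ex_lim (w g : FreeGroup S) :
    ∃ L, Tendsto (fun n : ℕ => brooks w (g ^ n) / n) atTop (𝓝 L) := by
  by_cases hw : w = 1
  · subst hw; exact ⟨0, by simp [brooks]⟩
  · obtain ⟨L, hL⟩ := conv (w := w.toWord) (by simpa using hw) g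
    obtain ⟨M, hM⟩ := conv (w := w⁻¹.toWord) (by rw [Ne, toWord_eq_nil_iff]; simpa using hw) g
    exact ⟨_, (hL.sub hM).congr fun n => by rw [brooks, sub_div]⟩

noncomputable def H (w g : FreeGroup S) : ℝ := (ex_lim w g).choose

lemma H_lim (w g : FreeGroup S) :
    Tendsto (fun n : ℕ => brooks w (g ^ n) / n) atTop (𝓝 (H w g)) := (ex_lim w g).choose_spec

lemma H_inv (w g : FreeGroup S) : H w⁻¹ g = -H w g :=
  tendsto_nhds_unique (H_lim _ _) ((H_lim w g).neg.congr fun n => by rw [brooks_inv, neg_div])

lemma NSO.inv {w : FreeGroup S} (h : NSO w) : NSO w⁻¹ := by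
  refine ⟨by simpa using h.1, fun u h1 h2 h3 h4 => ?_⟩
  rw [toWord_inv] at h2 h3 h4
  obtain ⟨x, hx⟩ := h3
  obtain ⟨y, hy⟩ := h4
  refine h.2 (invRev u) (fun e => h1 ?_) (fun e => h2 ?_) ⟨invRev y, ?_⟩ ⟨invRev x, ?_⟩
  · simpa using congrArg invRev e
  · rw [← e, invRev_invRev]
  · rw [← invRev_append, hy, invRev_invRev]
  · rw [← invRev_append, hx, invRev_invRev]

lemma cnt_per {w : FreeGroup S} (h : NSO w) (r : List (S × Bool))
    (hr : r.length < w.toWord.length) (n : ℕ) : cnt w.toWord (R r n) = 0 := by
  by_cases h0 : r = []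
  · subst h0; exact cnt_short (by simpa using hr)
  have hp : List.HasPeriod (R r n) r.length := by
    cases n with
    | zero => simp [R]
    | succ n =>
      have e1 : R r (n + 1) = r ++ R r n := by simp [R, List.replicate_succ]
      have e2 : r ++ R r (n + 1) = R r (n + 1) ++ r := by
        rw [show r ++ R r (n + 1) = R r (n + 1 + 1) by simp [R, List.replicate_succ]]
        simp only [R, List.replicate_succ' (n := n + 1), List.flatten_append, List.flatten_singleton]
      have e3 : List.take r.length (R r (n + 1)) = r := by rw [e1]; simp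
      rw [List.HasPeriod, e3, e2]
      exact List.prefix_append _ _
  rw [cnt, List.countP_eq_zero]
  intro t ht hw
  obtain ⟨x, hx⟩ := (List.mem_tails _ _).1 ht
  obtain ⟨y, hy⟩ := of_decide_eq_true hw
  rw [← hx, ← hy, ← List.append_assoc] at hp
  have := List.length_pos_iff.2 h0
  refine h.2 _ (fun e => ?_) (fun e => ?_) (hp.factor.drop_prefix _) (List.drop_suffix _ _)
  · have := congrArg List.length e
    simp at this; omega
  · have := congrArg List.length e
    simp at this; omega

lemma H_zero {w g : FreeGroup S} (h : NSO w) (hg : g.toWord.length < w.toWord.length) :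
    H w g = 0 := by
  have hl : (reduceCyclically g.toWord).length ≤ g.toWord.length := by
    have := congrArg List.length (reduceCyclically.conj_conjugator_reduceCyclically g.toWord)
    simp at this; omega
  obtain ⟨C, hC⟩ := close (w := w.toWord) (by simpa using h.1) g
  obtain ⟨D, hD⟩ := close (w := w⁻¹.toWord) (by rw [Ne, toWord_eq_nil_iff]; exact h.inv.1) g
  refine tendsto_nhds_unique (H_lim w g)
    (tend_of_close (b := fun _ => 0) (C := C + D) (fun n => ?_) (by simp))
  have h1 := hC n
  have h2 := hD n
  rw [cnt_per h _ (by omega)] at h1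
  rw [cnt_per h.inv _ (by rw [toWord_inv, invRev_length]; omega)] at h2
  rw [brooks]
  rw [abs_le] at h1 h2 ⊢
  simp only [Nat.cast_zero, sub_zero] at h1 h2 ⊢
  constructor <;> linarith [h1.1, h1.2, h2.1, h2.2]

lemma brooks_zero {w g : FreeGroup S} (hg : g.toWord.length < w.toWord.length) :
    brooks w g = 0 := by
  rw [brooks, cnt_short hg, cnt_short (by rwa [toWord_inv, invRev_length])]; simp

variable [Fintype S]

def T (a : S) : Finset (S × Bool) := Finset.univ.erase (a, true)

lemma right_ext (a : S) (w0 l : List (S × Bool)) (hl : IsReduced l) :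
    cnt (w0 ++ [(a, false)]) l = ∑ s ∈ T a, cnt (w0 ++ [(a, false)] ++ [s]) l +
      if w0 ++ [(a, false)] <:+ l then 1 else 0 := by
  induction l with
  | nil => simp [cnt_nil]
  | cons c l ih =>
    have key : (if w0 ++ [(a, false)] <+: c :: l then 1 else 0) =
        (∑ s ∈ T a, if w0 ++ [(a, false)] ++ [s] <+: c :: l then 1 else 0) +
          if w0 ++ [(a, false)] = c :: l then 1 else 0 := by
      generalize c :: l = t at hl
      by_cases h : w0 ++ [(a, false)] <+: t
      · obtain ⟨z, rfl⟩ := h
        cases z with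
        | nil =>
          rw [List.append_nil, if_pos List.prefix_rfl, if_pos rfl, Finset.sum_eq_zero]
          intro s _
          rw [if_neg]
          intro h; have := h.length_le; simp at this
        | cons d z =>
          have hd : d ∈ T a := by
            rw [List.append_assoc, List.singleton_append] at hl
            have := (List.isChain_iff_forall_rel_of_append_cons_cons.1 hl) rfl
            refine Finset.mem_erase.2 ⟨?_, Finset.mem_univ _⟩
            rintro rfl
            simp at this
          simp only [List.prefix_append_right_inj, List.cons_prefix_cons, List.nil_prefix,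
            and_true, List.prefix_append, if_true]
          rw [Finset.sum_ite_eq', if_pos hd, if_neg (by simp)]
      · rw [if_neg h, if_neg (show ¬ w0 ++ [(a, false)] = t from fun e => h (e ▸ List.prefix_rfl)), Finset.sum_eq_zero]
        intro s _
        exact if_neg fun h' => h ((List.prefix_append _ _).trans h')
    simp only [cnt_cons, Finset.sum_add_distrib]
    rw [ih (List.IsChain.tail hl), key]
    by_cases h1 : w0 ++ [(a, false)] = c :: l
    · have h2 : ¬ w0 ++ [(a, false)] <:+ l := fun h => by
        have := h.length_le; rw [h1] at this; simp at this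
      rw [if_neg h2, if_pos h1, if_pos (h1 ▸ List.suffix_rfl)]; omega
    · simp only [List.suffix_cons_iff, h1, false_or, if_false]; omega

lemma left_ext (a : S) (u0 l : List (S × Bool)) (hl : IsReduced l) :
    cnt ((a, true) :: u0) l = ∑ s ∈ T a, cnt ((s.1, !s.2) :: (a, true) :: u0) l +
      if (a, true) :: u0 <+: l then 1 else 0 := by
  induction l with
  | nil => simp [cnt_nil]
  | cons c l ih =>
    have key : (∑ s ∈ T a, if (s.1, !s.2) :: (a, true) :: u0 <+: c :: l then 1 else 0) =
        if (a, true) :: u0 <+: l then 1 else 0 := by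
      by_cases h : (a, true) :: u0 <+: l
      · have hd : (c.1, !c.2) ∈ T a := by
          obtain ⟨z, rfl⟩ := h
          have := (List.isChain_cons_cons.1 hl).1
          refine Finset.mem_erase.2 ⟨fun e => ?_, Finset.mem_univ _⟩
          obtain ⟨c1, c2⟩ := c
          simp only [Prod.mk.injEq] at e
          obtain ⟨rfl, e⟩ := e
          simp only [forall_const] at this
          subst this
          simp at e
        have e : ∀ s : S × Bool, ((s.1, !s.2) = c) ↔ s = (c.1, !c.2) := by
          rintro ⟨s1, s2⟩
          obtain ⟨c1, c2⟩ := c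
          cases s2 <;> cases c2 <;> simp
        simp only [List.cons_prefix_cons, h, and_true, if_true, e]
        rw [Finset.sum_ite_eq', if_pos hd]
      · simp [List.cons_prefix_cons, h]
    simp only [cnt_cons, Finset.sum_add_distrib]
    rw [key, ← ih (List.IsChain.tail hl)]

def W (a b : S) (k : ℕ) : List (S × Bool) :=
  List.replicate (k + 1) (a, true) ++ [(b, true)] ++ [(a, false)]

omit [DecidableEq S] [Fintype S] in
lemma red_rep (a : S) (k : ℕ) (l : List (S × Bool)) (h : IsReduced ((a, true) :: l)) :
    IsReduced (List.replicate (k + 1) (a, true) ++ l) := by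
  induction k with
  | zero => simpa using h
  | succ k ih =>
    rw [List.replicate_succ, List.cons_append, List.replicate_succ, List.cons_append]
    exact List.isChain_cons_cons.2 ⟨fun _ => rfl, ih⟩

omit [DecidableEq S] [Fintype S] in
lemma W_red {a b : S} (hab : a ≠ b) (k : ℕ) : IsReduced (W a b k) := by
  rw [W, List.append_assoc]
  exact red_rep a k _ (by simp [FreeGroup.IsReduced, hab.symm])

lemma Ws_red {a b : S} (hab : a ≠ b) (k : ℕ) {s : S × Bool} (hs : s ∈ T a) :
    IsReduced (W a b k ++ [s]) := by
  rw [W, List.append_assoc, List.append_assoc]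
  refine red_rep a k _ ?_
  obtain ⟨s1, s2⟩ := s
  have := (Finset.mem_erase.1 hs).1
  cases s2
  · simp [FreeGroup.IsReduced, hab.symm]
  · simp at this; simp [FreeGroup.IsReduced, hab.symm, Ne.symm this]

omit [Fintype S] in
lemma tw {l : List (S × Bool)} (h : IsReduced l) : (mk l).toWord = l := by
  rw [toWord_mk, h.reduce_eq]

omit [Fintype S] in
lemma W_nso {a b : S} (hab : a ≠ b) (k : ℕ) : NSO (mk (W a b k)) := by
  refine ⟨fun e => ?_, ?_⟩
  · have := tw (W_red hab k)
    rw [e] at this; simp [W] at this
  · rw [tw (W_red hab k), W]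
    intro u h1 h2 h3 h4
    obtain ⟨t, rfl, -⟩ := (List.suffix_concat_iff.1 h4).resolve_left h1
    have := ((List.prefix_concat_iff.1 h3).resolve_left h2).subset
      (show (a, false) ∈ t ++ [(a, false)] by simp)
    simp at this

lemma Ws_nso {a b : S} (hab : a ≠ b) (k : ℕ) {s : S × Bool} (hs : s ∈ T a) :
    NSO (mk (W a b k ++ [s])) := by
  refine ⟨fun e => ?_, ?_⟩
  · have := tw (Ws_red hab k hs)
    rw [e] at this; simp [W] at this
  · rw [tw (Ws_red hab k hs)]
    intro u h1 h2 h3 h4
    obtain ⟨t, rfl, h5⟩ := (List.suffix_concat_iff.1 h4).resolve_left h1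
    have h6 := (List.prefix_concat_iff.1 h3).resolve_left h2
    rw [W] at h5 h6
    rcases List.suffix_concat_iff.1 h5 with rfl | ⟨t', rfl, -⟩
    · rw [List.replicate_succ] at h6
      simp only [List.nil_append, List.cons_append, List.cons_prefix_cons] at h6
      exact (Finset.mem_erase.1 hs).1 h6.1
    · rcases List.prefix_concat_iff.1 h6 with e | e
      · have e2 := (List.append_inj' e rfl).1
        have : (a, false) ∈ t' ++ [(a, false)] := by simp
        rw [e2] at this
        simp at this
      · have := e.subset (show (a, false) ∈ t' ++ [(a, false)] ++ [s] by simp)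
        simp at this

lemma diff {a b : S} (hab : a ≠ b) (k : ℕ) (g : FreeGroup S) :
    brooks (mk (W a b k)) g - ∑ s ∈ T a, brooks (mk (W a b k ++ [s])) g =
      (if W a b k <:+ g.toWord then 1 else 0) -
        (if invRev (W a b k) <+: g.toWord then 1 else 0) := by
  have e1 : invRev (W a b k) =
      (a, true) :: invRev (List.replicate (k + 1) (a, true) ++ [(b, true)]) := by
    rw [W, invRev_append]; rfl
  have e2 : ∀ s ∈ T a, brooks (mk (W a b k ++ [s])) g = (cnt (W a b k ++ [s]) g.toWord : ℝ) -
      cnt ((s.1, !s.2) :: invRev (W a b k)) g.toWord := fun s hs => by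
    rw [brooks, toWord_inv, tw (Ws_red hab k hs), invRev_append]; rfl
  rw [Finset.sum_congr rfl e2, brooks, toWord_inv, tw (W_red hab k), e1,
    left_ext a _ _ isReduced_toWord, W, right_ext a _ _ isReduced_toWord, Finset.sum_sub_distrib]
  push_cast
  ring

noncomputable def ee (u w : FreeGroup S) : ℝ :=
  (if u = w then 1 else 0) - (if u = w⁻¹ then 1 else 0)

noncomputable def al (a b : S) (w : FreeGroup S) : ℝ :=
  ∑ k ∈ Finset.range w.toWord.length,
    (ee (mk (W a b k)) w - ∑ s ∈ T a, ee (mk (W a b k ++ [s])) w)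

omit [Fintype S] in
lemma ee_inv (u w : FreeGroup S) : ee u w⁻¹ = -ee u w := by simp [ee]

omit [Fintype S] in
lemma ee_nso {u w : FreeGroup S} (hu : NSO u) (hw : ¬ NSO w) : ee u w = 0 := by
  rw [ee, if_neg, if_neg, sub_zero]
  · rintro rfl; exact hw (by simpa using hu.inv)
  · rintro rfl; exact hw hu

omit [Fintype S] in
lemma ee_len {u w : FreeGroup S} (h : w.toWord.length < u.toWord.length) : ee u w = 0 := by
  rw [ee, if_neg, if_neg, sub_zero]
  · rintro rfl; rw [toWord_inv, invRev_length] at h; omega
  · rintro rfl; omega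

omit [Fintype S] in
lemma ee_sum (Np : Set (FreeGroup S)) (h2 : ∀ w, NSO w → (w ∈ Np ↔ w⁻¹ ∉ Np))
    (F : FreeGroup S → ℝ) (hF : ∀ w, F w⁻¹ = -F w) {u : FreeGroup S} (hu : NSO u) :
    HasSum (fun w : Np => ee u w * F w) (F u) := by
  by_cases h : u ∈ Np
  · have h' := (h2 u hu).1 h
    have hn : ∀ w : Np, u ≠ (w : FreeGroup S)⁻¹ := fun w e => h' (by rw [e, inv_inv]; exact w.2)
    have := hasSum_single (f := fun w : Np => ee u w * F w) ⟨u, h⟩ (fun w hw => by
      rw [ee, if_neg (fun e => hw (Subtype.ext e.symm)), if_neg (hn w)]; simp)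
    simpa [ee, hn ⟨u, h⟩] using this
  · have h' : u⁻¹ ∈ Np := by by_contra c; exact h ((h2 u hu).2 c)
    have hn : ∀ w : Np, u ≠ (w : FreeGroup S) := fun w e => h (by rw [e]; exact w.2)
    have := hasSum_single (f := fun w : Np => ee u w * F w) ⟨u⁻¹, h'⟩ (fun w hw => by
      rw [ee, if_neg (hn w), if_neg (fun e => hw (Subtype.ext (by simp [e])))]; simp)
    simpa [ee, hn ⟨u⁻¹, h'⟩, hF] using this

lemma key {a b : S} (hab : a ≠ b) (Np : Set (FreeGroup S)) (h1 : ∀ w ∈ Np, NSO w)
    (h2 : ∀ w, NSO w → (w ∈ Np ↔ w⁻¹ ∉ Np)) (F : FreeGroup S → ℝ) (hF : ∀ w, F w⁻¹ = -F w)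
    (M : ℕ) (hM : ∀ w, NSO w → M < w.toWord.length → F w = 0) :
    HasSum (fun w : Np => al a b w * F w)
      (∑ k ∈ Finset.range M, (F (mk (W a b k)) - ∑ s ∈ T a, F (mk (W a b k ++ [s])))) := by
  have := hasSum_sum (s := Finset.range M) fun k _ => (ee_sum Np h2 F hF (W_nso hab k)).sub
    (hasSum_sum (s := T a) fun s hs => ee_sum Np h2 F hF (Ws_nso hab k hs))
  refine (congrArg (HasSum · _) (funext fun w => ?_)).mp this
  symm
  by_cases h : M < w.1.toWord.length
  · simp [hM w (h1 w w.2) h]
  · simp only [← Finset.sum_mul, ← sub_mul]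
    congr 1
    refine Finset.sum_subset (Finset.range_subset_range.2 (not_lt.1 h)) fun k _ hk => ?_
    have hk' : w.1.toWord.length ≤ k := by simpa using hk
    rw [ee_len, Finset.sum_eq_zero, sub_zero]
    · intro s hs
      refine ee_len ?_
      rw [tw (Ws_red hab k hs)]; simp [W]; omega
    · rw [tw (W_red hab k)]; simp [W]; omega

/-- There is an alternating coefficient map supported on non-self-overlapping words whose
termwise homogenized sum is a quasimorphism while the sum of Brooks functions is not. -/
theorem result (S : Type) [Fintype S] [DecidableEq S] [Nontrivial S] (Np : Set (FreeGroup S))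
    (h1 : ∀ w ∈ Np, NSO w) (h2 : ∀ w, NSO w → (w ∈ Np ↔ w⁻¹ ∉ Np)) :
    ∃ α : FreeGroup S → ℝ, (∀ w, α w⁻¹ = -α w) ∧ (∀ w, ¬ NSO w → α w = 0) ∧
      ∃ (hbar : FreeGroup S → FreeGroup S → ℝ) (φ ψ : FreeGroup S → ℝ),
        (∀ w ∈ Np, ∀ g,
          Tendsto (fun n : ℕ => brooks w (g ^ n) / n) atTop (𝓝 (hbar w g))) ∧
        (∀ g, HasSum (fun w : Np => α w * brooks w g) (φ g)) ∧
        (∀ g, HasSum (fun w : Np => α w * hbar w g) (ψ g)) ∧ IsQM ψ ∧ ¬ IsQM φ := by
  obtain ⟨a, b, hab⟩ := exists_pair_ne S
  refine ⟨al a b, fun w => ?_, fun w hw => ?_, H, _, fun _ => 0, fun w _ g => H_lim w g,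
    fun g => key hab Np h1 h2 (fun w => brooks w g) (fun w => brooks_inv w g) g.toWord.length
      (fun w _ h => brooks_zero h), fun g => ?_, ⟨0, by simp⟩, ?_⟩
  · simp only [al, toWord_inv, invRev_length, ee_inv, ← Finset.sum_neg_distrib]
    refine Finset.sum_congr rfl fun k _ => ?_
    rw [Finset.sum_neg_distrib]; ring
  · refine Finset.sum_eq_zero fun k _ => ?_
    rw [ee_nso (W_nso hab k) hw, Finset.sum_eq_zero fun s hs => ee_nso (Ws_nso hab k hs) hw,
      sub_zero]
  · have := key hab Np h1 h2 (fun w => H w g) (fun w => H_inv w g) g.toWord.length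
      (fun w hw h => H_zero hw h)
    rwa [Finset.sum_eq_zero] at this
    intro k _
    have t1 := (H_lim (mk (W a b k)) g).sub
      (tendsto_finset_sum (T a) fun s _ => H_lim (mk (W a b k ++ [s])) g)
    refine tendsto_nhds_unique t1 ((tend_of_close (b := fun _ => 0) (C := 1)
      (a := fun n => brooks (mk (W a b k)) (g ^ n) -
        ∑ s ∈ T a, brooks (mk (W a b k ++ [s])) (g ^ n)) (fun n => ?_) (by simp)).congr
          fun n => by rw [sub_div, Finset.sum_div])
    rw [diff hab]
    split_ifs <;> simp
  · rintro ⟨D, hD⟩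
    obtain ⟨k, hk⟩ := exists_nat_gt D
    have hb : (b, true) ∈ T a := by simp [T, hab.symm]
    have r1 : IsReduced ((b, true) :: W a b k) := by
      have := W_red hab k
      rw [W, List.replicate_succ] at this ⊢
      exact List.isChain_cons_cons.2 ⟨fun _ => rfl, this⟩
    have r2 : IsReduced ((b, true) :: W a b k ++ [(b, true)]) := by
      have := Ws_red hab k hb
      rw [W, List.replicate_succ] at this ⊢
      exact List.isChain_cons_cons.2 ⟨fun _ => rfl, this⟩
    have nB : ∀ j l, ¬ invRev (W a b j) <+: (b, true) :: l := fun j l h => by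
      rw [W, invRev_append] at h
      exact hab (congrArg Prod.fst (List.cons_prefix_cons.1 h).1)
    have nE : ∀ j l, ¬ W a b j <:+ l ++ [(b, true)] := fun j l h => by
      rcases List.suffix_concat_iff.1 h with e | ⟨t, e, -⟩
      · simp [W] at e
      · have := (List.append_inj' e rfl).2
        simp at this
    have := hD (mk ((b, true) :: W a b k)) (mk [(b, true)])
    simp only [diff hab, mul_mk, tw r1, tw r2, tw (IsReduced.singleton (a := (b, true)))] at this
    have nE0 := fun j => nE j []
    have nE1 := fun j => nE j ((b, true) :: W a b k)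
    simp only [List.nil_append] at nE0
    simp only [List.cons_append] at nE1 this
    simp only [nB, nE0, nE1, if_false, sub_zero, Finset.sum_const_zero, add_zero] at this
    have h3 : ∑ j ∈ Finset.range (k + 1), (if W a b j <:+ (b, true) :: W a b k then (1 : ℝ) else 0)
        = k + 1 := by
      rw [Finset.sum_congr rfl (g := fun _ => 1) fun j hj => if_pos ?_]
      · simp
      · obtain ⟨i, rfl⟩ := Nat.exists_eq_add_of_le' (Nat.lt_succ_iff.1 (Finset.mem_range.1 hj))
        refine ⟨(b, true) :: List.replicate i (a, true), ?_⟩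
        simp only [W, List.cons_append, ← List.append_assoc, ← List.replicate_add, add_assoc]
    have h4 := Finset.sum_le_sum_of_subset_of_nonneg
      (f := fun j => if W a b j <:+ (b, true) :: W a b k then (1 : ℝ) else 0)
      (Finset.range_subset_range.2 (show k + 1 ≤ ((b, true) :: W a b k).length by simp [W]))
      (fun j _ _ => by positivity)
    linarith [(abs_le.1 this).2]

end Pool.Agent.Results.MP_c1a8be_al.Counter
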